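import Pool.Agent.SGL.StmtsU
import Pool.Agent.Helper56_SGP.CTR
import Pool.Agent.Helper11_SGL.FNL

/-!
# Squad SGL (MP_41797f_co), row FNU: the theorem (after Helper11_SGL/FNL.lean)
-/

set_option autoImplicit false

noncomputable section

namespace Pool.Agent.SGL.H17

open Pool.Agent.SGE Pool.Agent.SGP Pool.Agent.SGY Pool.Agent.SGD Pool.Agent.SGL Filter

section idx

variable {V : Type} [Fintype V] {a b c : V} {E : V → V → Prop} {F : V → V → V → Prop} {N : ℕ}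
  {v : ℕ → V} {C₁ C S : ℕ → List V}

theorem fu_rel (h : Run a b c E F N v C₁ C S) : Rel E a ∧ Rel E b ∧ Rel E c :=
  ⟨Pool.Agent.SGP.H56.contour_nb h.nt (by simp), Pool.Agent.SGP.H56.contour_nb h.nt (by simp),
    Pool.Agent.SGP.H56.contour_nb h.nt (by simp)⟩

theorem fu_R (h : Run a b c E F N v C₁ C S) (x : V) :
    x ∈ RR a E ↔ ∃ i, i ≤ N + 1 ∧ v i = x := by
  constructor
  · rintro ⟨hx, hxa⟩
    by_cases hb : x = b
    · exact ⟨N + 1, le_rfl, by rw [h.vb, hb]⟩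
    by_cases hc : x = c
    · exact ⟨0, Nat.zero_le _, by rw [h.v0, hc]⟩
    have hI : x ∈ Inn a b c E := ⟨hxa, hb, hc, hx⟩
    rw [← h.inn] at hI
    obtain ⟨i, h1, h2, h3⟩ := hI
    exact ⟨i, by omega, h3⟩
  · rintro ⟨i, hi, rfl⟩
    obtain ⟨ra, rb, rc⟩ := fu_rel h
    refine ⟨?_, h.na i hi⟩
    by_cases h0 : i = 0
    · subst h0
      rw [h.v0]
      exact rc
    by_cases h1 : i = N + 1
    · subst h1
      rw [h.vb]
      exact rb
    have hI : v i ∈ Kl v N := ⟨i, by omega, by omega, rfl⟩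
    rw [h.inn] at hI
    exact hI.2.2.2

theorem fu_ncard (h : Run a b c E F N v C₁ C S) (l m : ℕ) (hm : m ≤ N + 1) :
    (v '' Set.Icc l m).ncard = m + 1 - l := by
  rw [Set.ncard_image_of_injOn, Set.ncard_eq_toFinset_card', Set.toFinset_Icc, Nat.card_Icc]
  intro i hi j hj hij
  exact h.inj i j (hi.2.trans hm) (hj.2.trans hm) hij

theorem fu_Kl (v : ℕ → V) (j : ℕ) : Kl v j = v '' Set.Icc 1 j := by
  ext x
  constructor
  · rintro ⟨i, h1, h2, h3⟩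
    exact ⟨i, ⟨h1, h2⟩, h3⟩
  · rintro ⟨i, ⟨h1, h2⟩, h3⟩
    exact ⟨i, h1, h2, h3⟩

theorem fu_U (h : Run a b c E F N v C₁ C S) (m : ℕ) (hm : m ≤ N) :
    Inn a b c E \ Kl v m = v '' Set.Icc (m + 1) N := by
  rw [← h.inn]
  ext x
  constructor
  · rintro ⟨⟨i, h1, h2, h3⟩, hx⟩
    refine ⟨i, ⟨?_, h2⟩, h3⟩
    by_contra hc
    exact hx ⟨i, h1, by omega, h3⟩
  · rintro ⟨i, ⟨h1, h2⟩, rfl⟩
    refine ⟨⟨i, by omega, h2, rfl⟩, ?_⟩
    rintro ⟨j, h3, h4, h5⟩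
    have := h.inj j i (by omega) (by omega) h5
    omega

theorem fu_low (h : Run a b c E F N v C₁ C S) (σ : ℕ → ℕ) (s : V → ℕ)
    (hs : ∀ i, i ≤ N + 1 → s (v i) = σ i) (j₀ : ℕ) (hj : j₀ ≤ N)
    (h0 : ∀ i, i ≤ j₀ → σ i = 0) (h1 : ∀ i, j₀ < i → i ≤ N + 1 → 0 < σ i) (x : V) :
    x ∈ Kl v j₀ ∪ {c} ↔ x ∈ RR a E ∧ s x = 0 := by
  rw [fu_R h]
  constructor
  · rintro (⟨i, h2, h3, rfl⟩ | hx)
    · exact ⟨⟨i, by omega, rfl⟩, by rw [hs i (by omega), h0 i h3]⟩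
    · rw [Set.mem_singleton_iff] at hx
      rw [hx, ← h.v0]
      exact ⟨⟨0, by omega, rfl⟩, by rw [hs 0 (by omega), h0 0 (by omega)]⟩
  · rintro ⟨⟨i, hi, rfl⟩, h2⟩
    rw [hs i hi] at h2
    have h3 : i ≤ j₀ := by
      by_contra hc
      have := h1 i (by omega) hi
      omega
    by_cases h4 : i = 0
    · right
      rw [h4, h.v0]
      rfl
    · left
      exact ⟨i, by omega, h3, rfl⟩

theorem fu_up (h : Run a b c E F N v C₁ C S) (σ : ℕ → ℕ) (s : V → ℕ)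
    (hs : ∀ i, i ≤ N + 1 → s (v i) = σ i) (m₁ h' : ℕ) (hm : m₁ ≤ N)
    (h0 : ∀ i, i ≤ m₁ → σ i < h') (h1 : ∀ i, m₁ < i → i ≤ N + 1 → σ i = h') (x : V) :
    x ∈ (Inn a b c E \ Kl v m₁) ∪ {b} ↔ x ∈ RR a E ∧ s x = h' := by
  rw [fu_R h, fu_U h m₁ hm]
  constructor
  · rintro (⟨i, ⟨h2, h3⟩, rfl⟩ | hx)
    · exact ⟨⟨i, by omega, rfl⟩, by rw [hs i (by omega), h1 i (by omega) (by omega)]⟩
    · rw [Set.mem_singleton_iff] at hx
      rw [hx, ← h.vb]
      exact ⟨⟨N + 1, le_rfl, rfl⟩, by rw [hs _ le_rfl, h1 _ (by omega) le_rfl]⟩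
  · rintro ⟨⟨i, hi, rfl⟩, h2⟩
    rw [hs i hi] at h2
    have h3 : m₁ < i := by
      by_contra hc
      have := h0 i (by omega)
      omega
    by_cases h4 : i = N + 1
    · right
      rw [h4, h.vb]
      rfl
    · left
      exact ⟨i, ⟨by omega, by omega⟩, rfl⟩

end idx

section ends

variable {V : Type} {a b c : V} {F : V → V → V → Prop} {K U : Set V} {k : ℕ} {D : ℕ → ℕ}
  {x y : V → ℝ} {π : ℕ → V}

theorem gB_mem (h : EndB a c F K k D x y π) (i : ℕ) (h1 : 1 ≤ i) (_h2 : i ≤ k + 1) :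
    ps c a k π i ∈ K ∪ {c} := by
  unfold ps
  rw [if_neg (by omega)]
  by_cases h3 : i ≤ k
  · rw [if_pos h3]
    exact Or.inl (h.pin i h1 h3)
  · rw [if_neg h3]
    exact Or.inr rfl

theorem gB_surj (h : EndB a c F K k D x y π) (u : V) (hu : u ∈ K ∪ {c}) :
    ∃ i, 1 ≤ i ∧ i ≤ k + 1 ∧ ps c a k π i = u := by
  rcases hu with hu | hu
  · obtain ⟨i, h1, h2, h3⟩ := h.psu u hu
    refine ⟨i, h1, by omega, ?_⟩
    unfold ps
    rw [if_neg (by omega), if_pos h2, h3]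
  · refine ⟨k + 1, by omega, le_rfl, ?_⟩
    unfold ps
    rw [if_neg (by omega), if_neg (by omega)]
    exact (Set.mem_singleton_iff.1 hu).symm

theorem gB_lt (h : EndB a c F K k D x y π) (i j : ℕ) (h1 : 1 ≤ i) (h2 : i < j)
    (h3 : j ≤ k + 1) : x (ps c a k π j) < x (ps c a k π i) := by
  unfold ps
  rw [if_neg (show ¬ j = 0 by omega), if_neg (show ¬ i = 0 by omega),
    if_pos (show i ≤ k by omega)]
  by_cases h4 : j ≤ k
  · rw [if_pos h4]
    exact h.xd i j h1 h2 h4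
  · rw [if_neg h4]
    exact h.xc _ (h.pin i h1 (by omega))

theorem xB_inj (h : EndB a c F K k D x y π) (u : V) (hu : u ∈ K ∪ {c}) (w : V)
    (hw : w ∈ K ∪ {c}) (he : x u = x w) : u = w := by
  obtain ⟨i, h1, h2, rfl⟩ := gB_surj h u hu
  obtain ⟨j, h3, h4, rfl⟩ := gB_surj h w hw
  rcases lt_trichotomy i j with hij | hij | hij
  · have := gB_lt h i j h1 hij h4
    linarith
  · rw [hij]
  · have := gB_lt h j i h3 hij h2
    linarith

theorem gT_mem (h : EndT a b F U k D x y π) (i : ℕ) (h2 : i ≤ k) :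
    ps a b k π i ∈ U ∪ {b} := by
  unfold ps
  by_cases h3 : i = 0
  · rw [if_pos h3]
    exact Or.inr rfl
  · rw [if_neg h3, if_pos h2]
    exact Or.inl (h.pin i (by omega) h2)

theorem gT_surj (h : EndT a b F U k D x y π) (u : V) (hu : u ∈ U ∪ {b}) :
    ∃ i, i ≤ k ∧ ps a b k π i = u := by
  rcases hu with hu | hu
  · obtain ⟨i, h1, h2, h3⟩ := h.psu u hu
    refine ⟨i, h2, ?_⟩
    unfold ps
    rw [if_neg (by omega), if_pos h2, h3]
  · refine ⟨0, by omega, ?_⟩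
    unfold ps
    rw [if_pos rfl]
    exact (Set.mem_singleton_iff.1 hu).symm

theorem gT_lt (h : EndT a b F U k D x y π) (i j : ℕ) (h2 : i < j)
    (h3 : j ≤ k) : x (ps a b k π i) < x (ps a b k π j) := by
  unfold ps
  rw [if_neg (show ¬ j = 0 by omega), if_pos h3]
  by_cases h4 : i = 0
  · rw [if_pos h4]
    exact h.xb _ (h.pin j (by omega) h3)
  · rw [if_neg h4, if_pos (show i ≤ k by omega)]
    exact h.xd i j (by omega) h2 h3

end ends

/-- the rank of a vertex of `R` -/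
def rk {V : Type} [Fintype V] (R : Set V) (x : V → ℝ) (u : V) : ℕ :=
  {w : V | w ∈ R ∧ x w < x u}.ncard

theorem rk_lt {V : Type} [Fintype V] (R : Set V) (x : V → ℝ) (p : V) (hp : p ∈ R) (q : V) :
    rk R x p < rk R x q ↔ x p < x q := by
  constructor
  · intro h
    by_contra hc
    push Not at hc
    have h1 : {w : V | w ∈ R ∧ x w < x q} ⊆ {w : V | w ∈ R ∧ x w < x p} :=
      fun w hw => ⟨hw.1, lt_of_lt_of_le hw.2 hc⟩
    have h2 := Set.ncard_le_ncard h1 (Set.toFinite _)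
    unfold rk at h
    omega
  · intro h
    unfold rk
    refine Set.ncard_lt_ncard ?_ (Set.toFinite _)
    refine ⟨fun w hw => ⟨hw.1, hw.2.trans h⟩, fun hsub => ?_⟩
    have h1 : p ∈ {w : V | w ∈ R ∧ x w < x p} := hsub ⟨hp, h⟩
    exact lt_irrefl _ h1.2

/-- in one slice -/
theorem cu_o {V : Type} (a : V) (s : V → ℕ) (x y : V → ℝ) (B W : ℝ) (p q r : V) (hp : p ≠ a)
    (hq : q ≠ a) (hr : r ≠ a) (h1 : s p = s q) (h2 : s q = s r) (x₁ y₁ : V → ℝ) (τ : ℝ)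
    (ep : x p = x₁ p + τ ∧ y p = y₁ p) (eq : x q = x₁ q + τ ∧ y q = y₁ q)
    (er : x r = x₁ r + τ ∧ y r = y₁ r) :
    o (cu a s x y B W p) (cu a s x y B W q) (cu a s x y B W r) =
      o (pv x₁ y₁ p) (pv x₁ y₁ q) (pv x₁ y₁ r) := by
  unfold cu pv
  rw [if_neg hp, if_neg hq, if_neg hr, h1, h2, ep.1, ep.2, eq.1, eq.2, er.1, er.2]
  unfold o
  ring

open Pool.Agent.SGL.H11 in
/-- The main lemma on the level of `NT`. -/
theorem fnm (run : RunStmt) (rpt : RptStmt) (xou : XouStmt) (enb : EnbStmt)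
    (ent : EntStmt) (bci : BciStmt) (pln : PlnStmt) (ptp : PtpStmt) (ebl : EblStmt)
    (ebh : EbhStmt) (nxu : NxuStmt) (arl : ArlStmt) (arh : ArhStmt) (psi : PsiStmt)
    (siu : SiuStmt) (sig : SigStmt) (mat : MatStmt) (fpl : FplStmt) (drw : DrwStmt)
    (gnz : GnzStmt) {n : ℕ} (G₁ G₂ : SimpleGraph (Fin n)) (a b c : Fin n)
    (E : Fin n ⊕ Fin 3 → Fin n ⊕ Fin 3 → Prop)
    (F : Fin n ⊕ Fin 3 → Fin n ⊕ Fin 3 → Fin n ⊕ Fin 3 → Prop)
    (hNT : NT (Sum.inl a) (Sum.inl b) [Sum.inl a, Sum.inl c, Sum.inl b] E F)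
    (hiso : ∀ i x, ¬ E (Sum.inr i) x ∧ ¬ E x (Sum.inr i)) (hRel : ∀ v, Rel E (Sum.inl v))
    (hNS : NoSep (Sum.inl a) E) (hG₁ : ∀ u v, G₁.Adj u v → E (Sum.inl u) (Sum.inl v))
    (t : Fin n) (h : ℕ) (lev pos : Fin n → ℕ) (hh : 1 ≤ h) (hL : LvU G₂ t h lev pos) :
    ∃ P : Finset (ℝ × ℝ), P.card = n ∧ (∃ f, Draw G₁ f ∧ ∀ u, f u ∈ P) ∧
      ∃ f, Draw G₂ f ∧ ∀ u, f u ∈ P := by
  classical
  have h3n : 3 ≤ n := by
    obtain ⟨u, hu, hu0⟩ := hL.ne0
    obtain ⟨w, hw, hwh⟩ := hL.neh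
    have huw : u ≠ w := by
      rintro rfl
      omega
    have h1 : ({t, u, w} : Finset (Fin n)).card = 3 := by
      rw [Finset.card_eq_three]
      exact ⟨t, u, w, hu.symm, hw.symm, huw, rfl⟩
    have h2 := Finset.card_le_univ ({t, u, w} : Finset (Fin n))
    rw [h1, Fintype.card_fin] at h2
    exact h2
  have hnd := hNT.nd
  have hrel_inl : ∀ x, Rel E x → ∃ u, x = Sum.inl u := by
    intro x hx
    obtain ⟨y, hy⟩ := hx
    rcases x with u | i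
    · exact ⟨u, rfl⟩
    · exact absurd hy (hiso i y).1
  have hab : a ≠ b := by
    intro h
    apply hNT.ab
    rw [h]
  have hac : a ≠ c := by
    intro h
    simp [h] at hnd
  have hcb : c ≠ b := by
    intro h
    simp [h] at hnd
  have hN : (Inn (Sum.inl a) (Sum.inl b) (Sum.inl c) E).ncard + 3 = n := by
    have h1 : Inn (Sum.inl a) (Sum.inl b) (Sum.inl c) E =
        (Sum.inl '' ({a, b, c} : Set (Fin n))ᶜ : Set (Fin n ⊕ Fin 3)) := by
      ext x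
      constructor
      · rintro ⟨hxa, hxb, hxc, hx⟩
        obtain ⟨u, rfl⟩ := hrel_inl x hx
        refine ⟨u, ?_, rfl⟩
        intro hu
        rcases hu with hu | hu | hu
        · exact hxa (by rw [hu])
        · exact hxb (by rw [hu])
        · exact hxc (by rw [hu])
      · rintro ⟨u, hu, rfl⟩
        refine ⟨?_, ?_, ?_, hRel u⟩
        · intro h
          exact hu (Or.inl (Sum.inl_injective h))
        · intro h
          exact hu (Or.inr (Or.inl (Sum.inl_injective h)))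
        · intro h
          exact hu (Or.inr (Or.inr (Sum.inl_injective h)))
    rw [h1, Set.ncard_image_of_injective _ Sum.inl_injective]
    have h2 := Set.ncard_add_ncard_compl ({a, b, c} : Set (Fin n))
    rw [Nat.card_fin] at h2
    have h3 : ({a, b, c} : Set (Fin n)).ncard = 3 := by
      rw [Set.ncard_eq_three]
      exact ⟨a, b, c, hab, hac, Ne.symm hcb, rfl⟩
    omega
  have hRcard : Nat.card (RR (Sum.inl a : Fin n ⊕ Fin 3) E) = n - 1 := by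
    have h1 : RR (Sum.inl a : Fin n ⊕ Fin 3) E =
        (Sum.inl '' ({a} : Set (Fin n))ᶜ : Set (Fin n ⊕ Fin 3)) := by
      ext x
      constructor
      · rintro ⟨hx, hxa⟩
        obtain ⟨u, rfl⟩ := hrel_inl x hx
        refine ⟨u, ?_, rfl⟩
        intro hu
        exact hxa (by rw [Set.mem_singleton_iff.mp hu])
      · rintro ⟨u, hu, rfl⟩
        refine ⟨hRel u, ?_⟩
        intro h
        exact hu (Sum.inl_injective h)
    have h2 := Set.ncard_add_ncard_compl ({a} : Set (Fin n))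
    rw [Nat.card_fin, Set.ncard_singleton] at h2
    have h3 : (RR (Sum.inl a : Fin n ⊕ Fin 3) E).ncard = n - 1 := by
      rw [h1, Set.ncard_image_of_injective _ Sum.inl_injective]
      omega
    exact h3
  set N := (Inn (Sum.inl a) (Sum.inl b) (Sum.inl c) E).ncard with hNdef
  obtain ⟨v, C₁, C, S, hRun⟩ := run hNT hNS N rfl
  have hPat := rpt hRun
  obtain ⟨σ, hσ, hσc⟩ := sig t lev
  -- the sizes of the end levels
  obtain ⟨j₀, hj₀⟩ : ∃ j₀, (Finset.univ.filter fun w : Fin n => w ≠ t ∧ lev w = 0).card =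
      j₀ + 1 := by
    obtain ⟨u, hu, hu0⟩ := hL.ne0
    have h1 : 0 < (Finset.univ.filter fun w : Fin n => w ≠ t ∧ lev w = 0).card :=
      Finset.card_pos.2 ⟨u, Finset.mem_filter.2 ⟨Finset.mem_univ _, hu, hu0⟩⟩
    exact ⟨_, (Nat.succ_pred_eq_of_pos h1).symm⟩
  obtain ⟨k₁, hk₁⟩ : ∃ k₁, (Finset.univ.filter fun w : Fin n => w ≠ t ∧ lev w = h).card =
      k₁ + 1 := by
    obtain ⟨u, hu, hu0⟩ := hL.neh
    have h1 : 0 < (Finset.univ.filter fun w : Fin n => w ≠ t ∧ lev w = h).card :=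
      Finset.card_pos.2 ⟨u, Finset.mem_filter.2 ⟨Finset.mem_univ _, hu, hu0⟩⟩
    exact ⟨_, (Nat.succ_pred_eq_of_pos h1).symm⟩
  obtain ⟨hsz, hs1, hs2, hs3⟩ := siu t h j₀ k₁ lev σ hh hσ hL.le hσc hj₀ hk₁
  obtain ⟨m₁, hm₁⟩ : ∃ m₁, m₁ + k₁ = N := ⟨N - k₁, by omega⟩
  have hjm : j₀ ≤ m₁ := by omega
  have hmN : m₁ ≤ N := by omega
  have hb2 : ∀ i, j₀ < i → i ≤ m₁ → 0 < σ i ∧ σ i < h := fun i h1 h2 => hs2 i h1 (by omega)
  have hb3 : ∀ i, m₁ < i → i ≤ N + 1 → σ i = h := fun i h1 h2 => hs3 i (by omega) (by omega)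
  obtain ⟨D₀, hD₀⟩ := arl G₂ t h lev pos j₀ hL hj₀
  obtain ⟨D₁, hD₁⟩ := arh G₂ t h lev pos k₁ hL hk₁
  -- the end slices
  have hc0 : (Kl v j₀).ncard = j₀ := by
    rw [fu_Kl, fu_ncard hRun 1 j₀ (by omega)]
    omega
  have hc1 : (Inn (Sum.inl a) (Sum.inl b) (Sum.inl c) E \ Kl v m₁).ncard = k₁ := by
    rw [fu_U hRun m₁ hmN, fu_ncard hRun (m₁ + 1) N (by omega)]
    omega
  obtain ⟨x₀, y₀, π₀, hEB⟩ := enb (hRun.st j₀ (by omega)) D₀
  obtain ⟨x₁, y₁, π₁, hET⟩ := ent (hRun.st m₁ hmN) D₁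
  rw [hc0] at hEB
  rw [hc1] at hET
  have hbci := bci (hRun.st j₀ (by omega)) j₀ D₀ x₀ y₀ π₀ hEB
  have hKm : ∀ i, i ≤ j₀ → v i ∈ Kl v j₀ ∪ {Sum.inl c} := by
    intro i hi
    by_cases h0 : i = 0
    · right
      rw [h0, hRun.v0]
      rfl
    · left
      exact ⟨i, by omega, hi, rfl⟩
  obtain ⟨x, hx0, hxi, hxc, hxC, hxg⟩ := xou hRun hPat σ hσ j₀ (by omega) x₀ (by
      intro i j hi hj hij
      exact hRun.inj i j (by omega) (by omega) (xB_inj hEB _ (hKm i hi) _ (hKm j hj) hij)) (by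
      intro i h1 h2
      rw [hRun.v0]
      exact hEB.xc _ ⟨i, h1, h2, rfl⟩) hbci
  obtain ⟨s, x', y', τ, hs, hP, hPK, hPU⟩ := pln hRun σ h j₀ m₁ hσ hh hjm hmN hs1 hb2 hb3 j₀ k₁
    D₀ D₁ x₀ y₀ x₁ y₁ π₀ π₁ hEB hET x hx0 hxi hxc hxC hxg
  set R := RR (Sum.inl a : Fin n ⊕ Fin 3) E with hR
  have hlow : ∀ z, z ∈ Kl v j₀ ∪ {Sum.inl c} ↔ z ∈ R ∧ s z = 0 :=
    fu_low hRun σ s hs j₀ (by omega) hs1 (by
      intro i h1 h2
      by_cases h3 : i ≤ m₁
      · exact (hb2 i h1 h3).1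
      · rw [hb3 i (by omega) h2]
        omega)
  have hup : ∀ z, z ∈ (Inn (Sum.inl a) (Sum.inl b) (Sum.inl c) E \ Kl v m₁) ∪ {Sum.inl b} ↔
      z ∈ R ∧ s z = h :=
    fu_up hRun σ s hs m₁ h hmN (by
      intro i h1
      by_cases h3 : i ≤ j₀
      · rw [hs1 i h3]
        omega
      · exact (hb2 i (by omega) h1).2) hb3
  set ρ : Fin n ⊕ Fin 3 → ℕ := rk R x' with hρ
  have hρlt : ∀ p ∈ R, ∀ q, ρ p < ρ q ↔ x' p < x' q := fun p hp q => rk_lt R x' p hp q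
  obtain ⟨B, W, hGT, hGL, hsame⟩ := ptp (ρ := ρ) hNT hh hP
    (fun p hp q _ h1 => (hρlt p hp q).1 h1)
  set f : Fin n ⊕ Fin 3 → ℝ × ℝ := cu (Sum.inl a) s x' y' B W with hf
  have hca : (Sum.inl c : Fin n ⊕ Fin 3) ≠ Sum.inl a := fun h => hac (Sum.inl_injective h).symm
  have hcR : (Sum.inl c : Fin n ⊕ Fin 3) ∈ R := ⟨hRel c, hca⟩
  have haR : (Sum.inl a : Fin n ⊕ Fin 3) ∉ R := fun h1 => h1.2 rfl
  have hρinj : ∀ p ∈ R, ∀ q ∈ R, ρ p = ρ q → p = q := by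
    intro p hp q hq he
    by_contra hne
    rcases lt_or_gt_of_ne (hP.xd p hp q hq hne) with h1 | h1
    · have := (hρlt p hp q).2 h1
      omega
    · have := (hρlt q hq p).2 h1
      omega
  have hAL : ArcL (Sum.inl a) R s ρ f (fun p q => ∃ i j, i < j ∧ j ≤ j₀ + 1 ∧ Ed j₀ D₀ i j ∧
      p = ps (Sum.inl c) (Sum.inl a) j₀ π₀ j ∧ q = ps (Sum.inl c) (Sum.inl a) j₀ π₀ i) := by
    refine ebl hEB haR hlow ?_ ?_ ?_
    · intro p hp q hq
      rw [hρlt p ((hlow p).1 hp).1 q, (hPK p hp).1, (hPK q hq).1]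
    · intro p hp q hq r hr
      have p1 := (hlow p).1 hp
      have q1 := (hlow q).1 hq
      have r1 := (hlow r).1 hr
      exact cu_o (Sum.inl a) s x' y' B W p q r p1.1.2 q1.1.2 r1.1.2 (p1.2.trans q1.2.symm)
        (q1.2.trans r1.2.symm) x₀ y₀ 0 ⟨by rw [add_zero]; exact (hPK p hp).1, (hPK p hp).2⟩
        ⟨by rw [add_zero]; exact (hPK q hq).1, (hPK q hq).2⟩
        ⟨by rw [add_zero]; exact (hPK r hr).1, (hPK r hr).2⟩
    · intro p hp r hr hy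
      have p1 := (hlow p).1 hp
      have r1 := (hlow r).1 hr
      refine hsame p p1.1 r r1.1 (p1.2.trans r1.2.symm) ?_
      rw [(hPK p hp).2, (hPK r hr).2]
      exact hy
  have hAH : ArcH (Sum.inl a) R h s ρ f (fun p q => ∃ i j, i < j ∧ j ≤ k₁ + 1 ∧ Ed k₁ D₁ i j ∧
      p = ps (Sum.inl a) (Sum.inl b) k₁ π₁ i ∧ q = ps (Sum.inl a) (Sum.inl b) k₁ π₁ j) := by
    refine ebh hET haR hup ?_ ?_ ?_
    · intro p hp q hq
      rw [hρlt p ((hup p).1 hp).1 q, (hPU p hp).1, (hPU q hq).1]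
      exact add_lt_add_iff_right τ
    · intro p hp q hq r hr
      have p1 := (hup p).1 hp
      have q1 := (hup q).1 hq
      have r1 := (hup r).1 hr
      exact cu_o (Sum.inl a) s x' y' B W p q r p1.1.2 q1.1.2 r1.1.2 (p1.2.trans q1.2.symm)
        (q1.2.trans r1.2.symm) x₁ y₁ τ (hPU p hp) (hPU q hq) (hPU r hr)
    · intro p hp r hr hy
      have p1 := (hup p).1 hp
      have r1 := (hup r).1 hr
      refine hsame p p1.1 r r1.1 (p1.2.trans r1.2.symm) ?_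
      rw [(hPU p hp).2, (hPU r hr).2]
      exact hy
  -- the matching
  have hidx : ∀ y : R, ∃ i, i ≤ N + 1 ∧ v i = y.1 := fun y => (fu_R hRun y.1).1 y.2
  choose Kx hKx1 hKx2 using hidx
  have hsK : ∀ y : R, s y.1 = σ (Kx y) := by
    intro y
    rw [← hs (Kx y) (hKx1 y), hKx2 y]
  have hcards : ∀ i, Nat.card {x : {w : Fin n // w ≠ t} // lev x.1 = i} =
      Nat.card {y : R // s y.1 = i} := by
    intro i
    have e1 : Nat.card {y : R // s y.1 = i} = Nat.card {y : R // σ (Kx y) = i} := by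
      simp only [hsK]
    rw [e1, card_level, card_slice Kx (n - 1) ?_ ?_ hRcard σ i, hσc i]
    · intro x y hxy
      apply Subtype.ext
      rw [← hKx2 x, ← hKx2 y, hxy]
    · intro x
      have h1 := hKx1 x
      omega
  obtain ⟨e, he1, he2⟩ := mat (A := {w : Fin n // w ≠ t})
    (B := R) (fun w => lev w.1) (fun w => pos w.1)
    (fun x => s x.1) (fun x => ρ x.1)
    (fun x y h1 h2 => Subtype.ext (hL.inj x.1 y.1 x.2 y.2 h1 h2))
    (fun x y _ h2 => Subtype.ext (hρinj x.1 x.2 y.1 y.2 h2)) hcards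
  obtain ⟨ψ, hψt, hψe⟩ : ∃ ψ : Fin n → Fin n ⊕ Fin 3, ψ t = Sum.inl a ∧
      ∀ w (h : w ≠ t), ψ w = (e ⟨w, h⟩ : R).1 :=
    ⟨fun w => if h : w = t then Sum.inl a else (e ⟨w, h⟩).1, dif_pos rfl,
      fun w h => dif_neg h⟩
  have hψR : ∀ w, w ≠ t → ψ w ∈ R ∧ s (ψ w) = lev w := by
    intro w hw
    rw [hψe w hw]
    exact ⟨(e ⟨w, hw⟩).2, he1 ⟨w, hw⟩⟩
  have hψsurj : ∀ r ∈ R, ∃ w, w ≠ t ∧ ψ w = r := by
    intro r hr
    refine ⟨(e.symm ⟨r, hr⟩).1, (e.symm ⟨r, hr⟩).2, ?_⟩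
    rw [hψe _ (e.symm ⟨r, hr⟩).2]
    have h1 : (⟨(e.symm ⟨r, hr⟩).1, (e.symm ⟨r, hr⟩).2⟩ : {w : Fin n // w ≠ t}) =
        e.symm ⟨r, hr⟩ := rfl
    rw [h1, Equiv.apply_symm_apply]
  have hψmono : ∀ w w', w ≠ t → w' ≠ t → lev w = lev w' → pos w < pos w' →
      ρ (ψ w) < ρ (ψ w') := by
    intro w w' hw hw' h1 h2
    rw [hψe w hw, hψe w' hw']
    exact he2 ⟨w, hw⟩ ⟨w', hw'⟩ h1 h2
  have hψinj : Function.Injective ψ := by
    intro u v huv
    by_cases hu : u = t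
    · by_cases hv : v = t
      · rw [hu, hv]
      · exfalso
        rw [hu, hψt] at huv
        exact (hψR v hv).1.2 huv.symm
    · by_cases hv : v = t
      · exfalso
        rw [hv, hψt] at huv
        exact (hψR u hu).1.2 huv
      · rw [hψe u hu, hψe v hv] at huv
        have h1 := e.injective (Subtype.ext huv)
        exact congrArg Subtype.val h1
  have hψRel : ∀ w, Rel E (ψ w) := by
    intro w
    by_cases hw : w = t
    · rw [hw, hψt]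
      exact hRel a
    · exact (hψR w hw).1.1
  have hψc : ∀ w, w ≠ t → lev w = 0 → (∀ w', w' ≠ t → lev w' = 0 → pos w ≤ pos w') →
      ψ w = Sum.inl c := by
    intro w hw hw0 hmin
    obtain ⟨w₀, hw₀, hc₀⟩ := hψsurj (Sum.inl c) hcR
    have h2 : lev w₀ = 0 := by
      rw [← (hψR w₀ hw₀).2, hc₀, hP.sc]
    have h5 := hmin w₀ hw₀ h2
    have h6 : ρ (Sum.inl c) ≤ ρ (ψ w) := by
      by_cases hwc : ψ w = Sum.inl c
      · rw [hwc]
      · refine le_of_lt ((hρlt _ hcR _).2 (hP.cx (ψ w) (hψR w hw).1 hwc ?_))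
        rw [(hψR w hw).2, hw0]
        omega
    have h7 : ¬ pos w < pos w₀ := by
      intro h
      have h8 := hψmono w w₀ hw hw₀ (hw0.trans h2.symm) h
      rw [hc₀] at h8
      omega
    have h9 : pos w = pos w₀ := by omega
    rw [hL.inj w w₀ hw hw₀ (hw0.trans h2.symm) h9, hc₀]
  -- positions
  obtain ⟨hg, hg'⟩ := psi t h j₀ k₁ lev pos ρ ψ (ps (Sum.inl c) (Sum.inl a) j₀ π₀)
    (ps (Sum.inl a) (Sum.inl b) k₁ π₁) hL.inj hψmono (by
      intro i h1 h2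
      have h3 := (hlow _).1 (gB_mem hEB i h1 h2)
      obtain ⟨w, hw, hw2⟩ := hψsurj _ h3.1
      refine ⟨w, hw, ?_, hw2⟩
      rw [← (hψR w hw).2, hw2]
      exact h3.2) (by
      intro w hw hw0
      have h3 : ψ w ∈ Kl v j₀ ∪ {Sum.inl c} :=
        (hlow _).2 ⟨(hψR w hw).1, by rw [(hψR w hw).2, hw0]⟩
      exact gB_surj hEB _ h3) (by
      intro i j h1 h2 h3
      have m1 := gB_mem hEB i h1 (by omega)
      have m2 := gB_mem hEB j (by omega) h3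
      rw [hρlt _ ((hlow _).1 m2).1, (hPK _ m1).1, (hPK _ m2).1]
      exact gB_lt hEB i j h1 h2 h3) (by
      intro i h2
      have h3 := (hup _).1 (gT_mem hET i h2)
      obtain ⟨w, hw, hw2⟩ := hψsurj _ h3.1
      refine ⟨w, hw, ?_, hw2⟩
      rw [← (hψR w hw).2, hw2]
      exact h3.2) (by
      intro w hw hw0
      have h3 : ψ w ∈ (Inn (Sum.inl a) (Sum.inl b) (Sum.inl c) E \ Kl v m₁) ∪ {Sum.inl b} :=
        (hup _).2 ⟨(hψR w hw).1, by rw [(hψR w hw).2, hw0]⟩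
      exact gT_surj hET _ h3) (by
      intro i j h2 h3
      have m1 := gT_mem hET i (by omega)
      have m2 := gT_mem hET j h3
      rw [hρlt _ ((hup _).1 m1).1, (hPU _ m1).1, (hPU _ m2).1]
      have := gT_lt hET i j h2 h3
      linarith)
  have hA : ∀ u w, G₂.Adj u w → u ≠ t → lev u = 0 → (w = t ∨ (lev w = 0 ∧ pos u < pos w)) →
      ∃ i j, i < j ∧ j ≤ j₀ + 1 ∧ Ed j₀ D₀ i j ∧
        ψ u = ps (Sum.inl c) (Sum.inl a) j₀ π₀ j ∧ ψ w = ps (Sum.inl c) (Sum.inl a) j₀ π₀ i := by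
    intro u w huw hu hu0 hw
    obtain ⟨h1, h2, h3⟩ := hD₀ u w huw hu hu0 hw
    refine ⟨_, _, h1, h2, h3, hg u hu hu0, ?_⟩
    by_cases hwt : w = t
    · rw [hwt, hψt]
      unfold ib
      rw [if_pos rfl]
      unfold ps
      rw [if_pos rfl]
    · rcases hw with hw | hw
      · exact absurd hw hwt
      · exact hg w hwt hw.1
  have hA' : ∀ u w, G₂.Adj u w → u ≠ t → lev u = h → (w = t ∨ (lev w = h ∧ pos u < pos w)) →
      ∃ i j, i < j ∧ j ≤ k₁ + 1 ∧ Ed k₁ D₁ i j ∧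
        ψ u = ps (Sum.inl a) (Sum.inl b) k₁ π₁ i ∧ ψ w = ps (Sum.inl a) (Sum.inl b) k₁ π₁ j := by
    intro u w huw hu hu0 hw
    obtain ⟨h1, h2, h3⟩ := hD₁ u w huw hu hu0 hw
    refine ⟨_, _, h1, h2, h3, hg' u hu hu0, ?_⟩
    by_cases hwt : w = t
    · rw [hwt, hψt]
      unfold ih
      rw [if_pos rfl]
      unfold ps
      rw [if_neg (by omega), if_neg (by omega)]
    · rcases hw with hw | hw
      · exact absurd hw hwt
      · exact hg' w hwt hw.1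
  -- injectivity of placements
  have hinj : ∀ φ : Fin n → Fin n ⊕ Fin 3, Function.Injective φ → (∀ u, Rel E (φ u)) →
      (∀ x y w, x ≠ y → x ≠ w → y ≠ w → o (f (φ x)) (f (φ y)) (f (φ w)) ≠ 0) ∧
      Function.Injective (fun u => f (φ u)) := by
    intro φ hφ hφR
    have h1 : ∀ x y w, x ≠ y → x ≠ w → y ≠ w → o (f (φ x)) (f (φ y)) (f (φ w)) ≠ 0 := by
      intro x y w hxy hxw hyw
      exact hGT.gp _ _ _ (hφR x) (hφR y) (hφR w) (fun h => hxy (hφ h)) (fun h => hxw (hφ h))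
        (fun h => hyw (hφ h))
    refine ⟨h1, ?_⟩
    intro u v huv
    by_contra hne
    obtain ⟨w, hwu, hwv⟩ := third h3n u v
    refine h1 u v w hne (Ne.symm hwu) (Ne.symm hwv) ?_
    have huv' : f (φ u) = f (φ v) := huv
    rw [huv', o_pp]
  obtain ⟨hgp1, hinj1⟩ := hinj (fun u => Sum.inl u) Sum.inl_injective hRel
  refine ⟨Finset.univ.image (fun u : Fin n => f (Sum.inl u)), ?_, ?_, ?_⟩
  · rw [Finset.card_image_of_injective _ hinj1, Finset.card_univ, Fintype.card_fin]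
  · refine ⟨fun u => f (Sum.inl u), ?_, fun u => Finset.mem_image_of_mem _ (Finset.mem_univ u)⟩
    obtain ⟨z, hz⟩ := gnz (fun u : Fin n => f (Sum.inl u)) hinj1
    refine drw z hgp1 hz ?_
    intro x y w u hxy hwu
    exact fpl hNT hGT _ _ _ _ (hG₁ x y hxy) (hG₁ w u hwu)
  · obtain ⟨hgp2, hinj2⟩ := hinj ψ hψinj hψRel
    refine ⟨fun u => f (ψ u), ?_, ?_⟩
    · obtain ⟨z, hz⟩ := gnz (fun u : Fin n => f (ψ u)) hinj2
      refine drw z hgp2 hz ?_
      exact nxu G₂ t h lev pos (Sum.inl a) (Sum.inl c) R s ρ _ _ f ψ hL hh hGL hAL hAH hρinj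
        hcR hψt hψR hψsurj hψmono hψc hA hA'
    · intro u
      obtain ⟨w, hw⟩ := hrel_inl (ψ u) (hψRel u)
      rw [Finset.mem_image]
      refine ⟨w, Finset.mem_univ w, ?_⟩
      show f (Sum.inl w) = f (ψ u)
      rw [hw]

/-- FNU. -/
theorem fnu (rla : RlaStmt) (run : RunStmt) (rpt : RptStmt) (xou : XouStmt) (enb : EnbStmt)
    (ent : EntStmt) (bci : BciStmt) (pln : PlnStmt) (ptp : PtpStmt) (ebl : EblStmt)
    (ebh : EbhStmt) (nxu : NxuStmt) (arl : ArlStmt) (arh : ArhStmt) (psi : PsiStmt)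
    (siu : SiuStmt) (sig : SigStmt) (mat : MatStmt) (fpl : FplStmt) (drw : DrwStmt)
    (gnz : GnzStmt) : FnuStmt := by
  classical
  intro n G₁ G₂ T a hMax hHit hle t h lev pos hh hL
  have h3n : 3 ≤ n := by
    obtain ⟨u, hu, hu0⟩ := hL.ne0
    obtain ⟨w, hw, hwh⟩ := hL.neh
    have huw : u ≠ w := by
      rintro rfl
      omega
    have h1 : ({t, u, w} : Finset (Fin n)).card = 3 := by
      rw [Finset.card_eq_three]
      exact ⟨t, u, w, hu.symm, hw.symm, huw, rfl⟩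
    have h2 := Finset.card_le_univ ({t, u, w} : Finset (Fin n))
    rw [h1, Fintype.card_fin] at h2
    exact h2
  obtain ⟨b, c, E, F, hNT, hE, hiso, hRel, hNS⟩ := rla T a h3n hMax hHit
  exact fnm run rpt xou enb ent bci pln ptp ebl ebh nxu arl arh psi siu sig mat fpl drw gnz
    G₁ G₂ a b c E F hNT hiso hRel hNS (fun u v huv => (hE u v).mpr (hle huv)) t h lev pos hh hL

end Pool.Agent.SGL.H17
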