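import Pool.Agent.SGL.StmtsU

/-!
# Squad SGL (MP_41797f_co), row SIU: the indices of the end slices
-/

set_option autoImplicit false

namespace Pool.Agent.SGL.H17

open Pool.Agent.SGE Pool.Agent.SGP Pool.Agent.SGY Pool.Agent.SGD Pool.Agent.SGL Filter

/-- SIU. -/
theorem siu : SiuStmt := by
  classical
  intro n t h j₀ k₁ lev σ hh hσ hlev hcard h0 h1
  have hn : 1 ≤ n := by
    have := t.isLt
    omega
  set N := n - 1 with hN
  have c0 : ((Finset.range N).filter fun j => σ j = 0).card = j₀ + 1 := by
    rw [hcard 0, h0]
  have ch : ((Finset.range N).filter fun j => σ j = h).card = k₁ + 1 := by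
    rw [hcard h, h1]
  have hle : ∀ j, j < N → σ j ≤ h := by
    intro j hj
    by_contra hc
    have h2 : 0 < ((Finset.range N).filter fun j' => σ j' = σ j).card := by
      apply Finset.card_pos.2
      exact ⟨j, Finset.mem_filter.2 ⟨Finset.mem_range.2 hj, rfl⟩⟩
    rw [hcard (σ j)] at h2
    obtain ⟨w, hw⟩ := Finset.card_pos.1 h2
    rw [Finset.mem_filter] at hw
    have h3 := hlev w hw.2.1
    omega
  have hsum : j₀ + 1 + (k₁ + 1) ≤ N := by
    have hdisj : Disjoint ((Finset.range N).filter fun j => σ j = 0)
        ((Finset.range N).filter fun j => σ j = h) := by
      rw [Finset.disjoint_left]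
      intro j hj hj'
      rw [Finset.mem_filter] at hj hj'
      omega
    rw [← c0, ← ch, ← Finset.card_union_of_disjoint hdisj]
    calc _ ≤ (Finset.range N).card := Finset.card_le_card (by
          intro j hj
          rw [Finset.mem_union, Finset.mem_filter, Finset.mem_filter] at hj
          rcases hj with hj | hj
          · exact hj.1
          · exact hj.1)
      _ = N := Finset.card_range N
  refine ⟨by omega, ?_, ?_, ?_⟩
  · intro i hi
    by_contra hc
    have h2 : ((Finset.range N).filter fun j => σ j = 0).card ≤ i := by
      calc _ ≤ (Finset.range i).card := Finset.card_le_card (by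
            intro j hj
            rw [Finset.mem_filter] at hj
            rw [Finset.mem_range]
            by_contra hji
            have := hσ (show i ≤ j by omega)
            omega)
        _ = i := Finset.card_range i
    omega
  · intro i hi hi2
    constructor
    · by_contra hc
      have h2 : i + 1 ≤ ((Finset.range N).filter fun j => σ j = 0).card := by
        calc i + 1 = (Finset.range (i + 1)).card := (Finset.card_range _).symm
          _ ≤ _ := Finset.card_le_card (by
            intro j hj
            rw [Finset.mem_range] at hj
            rw [Finset.mem_filter, Finset.mem_range]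
            have := hσ (show j ≤ i by omega)
            refine ⟨by omega, by omega⟩)
      omega
    · by_contra hc
      have h2 : N - i ≤ ((Finset.range N).filter fun j => σ j = h).card := by
        calc N - i = (Finset.Ico i N).card := (Nat.card_Ico i N).symm
          _ ≤ _ := Finset.card_le_card (by
            intro j hj
            rw [Finset.mem_Ico] at hj
            rw [Finset.mem_filter, Finset.mem_range]
            have h3 := hσ hj.1
            have h4 := hle j hj.2
            refine ⟨by omega, by omega⟩)
      omega
  · intro i hi hi2
    by_contra hc
    have h2 : ((Finset.range N).filter fun j => σ j = h).card ≤ N - (i + 1) := by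
      calc _ ≤ (Finset.Ico (i + 1) N).card := Finset.card_le_card (by
            intro j hj
            rw [Finset.mem_filter, Finset.mem_range] at hj
            rw [Finset.mem_Ico]
            refine ⟨?_, hj.1⟩
            by_contra hji
            have h3 := hσ (show j ≤ i by omega)
            have h4 := hle i (by omega)
            omega)
        _ = N - (i + 1) := Nat.card_Ico _ _
    omega

end Pool.Agent.SGL.H17
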